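import Pool.Agent.Helper54.Mix.Indep

/-!
# MP_261efc_co: paths with an averaged mixing matrix of rank one

Let `n ≥ 3` and let `n + 1` be a prime, twice a prime or a power of two. Then there is a probability
density `f` on the real line such that the averaged mixing matrix `∫ f(s) M(s) ds` of the
continuous-time quantum walk on the path `P_n` has rank one.

The proof: for these `n` the positive eigenvalues of `P_n` are linearly independent over the
rationals. Rank one is equivalent to `E cos((λ_k-λ_l)R) = -1/n` for `k ≠ l` of the same parity and
`0` for `k, l` of different parities. A density with these moments is a kernel whose characteristic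
function vanishes at the relevant nonzero integer combinations of the eigenvalues, times a
nonnegative trigonometric polynomial: an average of products of shifted copies of
`(2/5)(1 + cos x)^3`, the shifts being the angles `2πja/(n+1)`, `j` not divisible by `(n+1)/2`
(for `n` odd), corrected by the product of the factors `1 - cos(2 λ_k s)`.
-/

set_option autoImplicit false

namespace Pool.Agent.Results.MP_261efc_co.RankOneExists

open Pool.Agent.Helper54.Mix

theorem result (n : ℕ) (hn : 3 ≤ n)
    (h : (n + 1).Prime ∨ (∃ p : ℕ, p.Prime ∧ n + 1 = 2 * p) ∨ ∃ b : ℕ, n + 1 = 2 ^ b) :
    ∃ f : ℝ → ℝ, IsDensity f ∧ (avgMixing n f).rank = 1 :=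
  exists_rank_one (by omega) h (by omega)

end Pool.Agent.Results.MP_261efc_co.RankOneExists
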