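import Pool.Agent.Helper54.Mix.Iff

/-!
# MP_261efc_co: rank one is a trigonometric moment problem

For every `n ≥ 1` and every probability density `f` on the real line, the averaged mixing matrix
`∫ f(s) M(s) ds` of the continuous-time quantum walk on the path `P_n` has rank one if and only if,
for `1 ≤ k < l ≤ n` and with the eigenvalues `λ_k = 2 cos(kπ/(n+1))`, the moment
`∫ f(s) cos((λ_k - λ_l)s) ds` is `-1/n` when `l - k` is even and `0` when `l - k` is odd.
-/

set_option autoImplicit false

namespace Pool.Agent.Results.MP_261efc_co.RankOneMoments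

open Pool.Agent.Helper54.Mix

theorem result (n : ℕ) (hn : 1 ≤ n) (f : ℝ → ℝ) (hf : IsDensity f) :
    (avgMixing n f).rank = 1 ↔ ∀ k l : ℕ, 1 ≤ k → k < l → l ≤ n →
      ∫ s, f s * Real.cos ((2 * Real.cos (k * Real.pi / (n + 1)) - 2 * Real.cos (l * Real.pi / (n + 1))) * s) =
        if Even (l - k) then -(1 / (n : ℝ)) else 0 :=
  rank_one_iff_moments hn hf

end Pool.Agent.Results.MP_261efc_co.RankOneMoments
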