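import Pool.Agent.Helper54.Mix.Asm

/-!
# MP_261efc_co: rank one for all `n` such that `n + 1` is coprime to `105`

Let `n ≥ 1` and let `n + 1` be coprime to `105`, i.e. not divisible by `3`, `5` or `7`. Then there
is a probability density `f` on the real line such that the averaged mixing matrix
`∫ f(s) M(s) ds` of the continuous-time quantum walk on the path `P_n` has rank one.

The proof: write `N = n + 1`. For odd `N = 2m + 1` the numbers `2 cos(2πj/N)`, `1 ≤ j ≤ m`, may be
linearly dependent over the rationals, but they satisfy no nontrivial integer relation with sum of
absolute values of the coefficients at most `10` (Galois conjugation and induction on the number of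
prime factors). The density is a kernel whose characteristic function vanishes at the relevant
nonzero combinations, times `α (X² - 8mX + 12m²)² + β`, where `X` is the square of the absolute
value of `∑ exp(2 i s cos(2πj/N))`. For even `N` the positive eigenvalues of odd index and those of
even index are treated separately: each class has no short integer relation, and real trigonometric
polynomials of degree `8` in the eigenvalues of each class are used. The moments are constant terms
of Laurent polynomials, computed exactly.
-/

set_option autoImplicit false

namespace Pool.Agent.Results.MP_261efc_co.RankOneRough

open Pool.Agent.Helper54.Mix

theorem result (n : ℕ) (hn : 1 ≤ n) (h : (n + 1).Coprime 105) :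
    ∃ f : ℝ → ℝ, IsDensity f ∧ (avgMixing n f).rank = 1 :=
  exists_rank_one_coprime hn h

end Pool.Agent.Results.MP_261efc_co.RankOneRough
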